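import Pool.Agent.H.MP_fa5791_lc.E

set_option autoImplicit false

/-! Dominant functions and high degrees. -/

namespace Pool.Agent.H.MP_3eaa21_lc

open Pool.Agent.Lib.helper21.PR Pool.Agent.H.MP_fa5791_lc Pool.Agent.H.MP_fa2eca_lc Filter Set Encodable Denumerable
open Nat.Partrec Nat.Partrec.Code Pool.Agent.Lib.helper21

attribute [local irreducible] Primrec Computable

variable {α β : Type} [Primcodable α] [Primcodable β] {Y : ℕ → Bool}

def Dom (g : ℕ → ℕ) : Prop := ∀ f : ℕ → ℕ, CI O f → ∀ᶠ n in atTop, f n ≤ g n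

theorem sig2 {p : α → Prop} (h : RI (J Y) p) : ∃ T : α × ℕ → Prop, RI Y T ∧ ∀ a, p a ↔ ∃ k, ¬ T (a, k) := by
  rw [RI] at h
  obtain ⟨W, h1, h2, h3⟩ := h
  obtain ⟨j, j1, j2⟩ : ∃ j : ℕ → Prop, RI Y j ∧ ∀ i, j i ↔ J Y i := ⟨_, J_ri Y, fun _ => .rfl⟩
  obtain ⟨N, n1, n2, -, n3⟩ := (RI.un (Y := Y) (p := fun z : α × List Bool => W z ∧ ∀ i < z.2.length,
    z.2.getD i false = false ∨ j i) (by fun_prop)).norm
  obtain ⟨d, d1, d2⟩ : ∃ d : ℕ → List Bool × ℕ × ℕ, Primrec d ∧ ∀ x, d (encode x) = x :=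
    ⟨fun n => (decode n).getD ([], 0, 0), by fun_prop, by simp⟩
  have := ci_self Y
  refine ⟨fun z => N ((z.1, (d z.2).1), pre Y (d z.2).2.1) (d z.2).2.2 = false ∨ ∃ i, i < (d z.2).1.length ∧
    (d z.2).1.getD i false = false ∧ j i, RI.un (by fun_prop), fun a => ⟨fun h => ?_, fun ⟨k, h⟩ => ?_⟩⟩
  · obtain ⟨n, h⟩ := (h3 a h).exists
    have e : ∀ i < (pre (J Y) n).length, (pre (J Y) n).getD i false = J Y i := fun i k => by
      simp [pre, pre_len _ _ ▸ k]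
    obtain ⟨m, t, k⟩ := n3 (a, pre (J Y) n) ⟨h, fun i k => by simp only [e i k, j2]; cases J Y i <;> simp⟩
    exact ⟨encode (pre (J Y) n, m, t), by simp only [d2, k]; simp +contextual [e, j2, -List.getD_eq_getElem?_getD]⟩
  · simp only [not_or, Bool.not_eq_false, not_exists, not_and] at h
    obtain ⟨a1, a2⟩ := n2 _ _ _ h.1
    refine h2 a (d k).1.length ?_
    rwa [show pre (J Y) (d k).1.length = (d k).1 from List.ext_getElem (pre_len _ _) fun i _ c => ?_]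
    have e : (d k).1.getD i false = (d k).1[i] := List.getD_eq_getElem _ _ c
    have := h.2 i c
    have := a2 i c
    simp only [pre, List.getElem_map, List.getElem_range]
    cases b : (d k).1[i] <;> simp_all

theorem dom_high {g : ℕ → ℕ} (hg : CI Y g) (h : Dom g) : CI (J Y) (J (J O)) := by
  obtain ⟨T, t1, t2⟩ := sig2 (J_ri (J O))
  obtain ⟨N, n1, n2, -, n3⟩ := re_bool (r_pw (ri_re t1)).re
  obtain ⟨M, n4, m1, m2⟩ : ∃ M : ℕ × ℕ → ℕ → Bool, Primrec (fun z : (ℕ × ℕ) × ℕ => M z.1 z.2) ∧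
      (∀ a t, M a t → T a) ∧ ∀ a t u, t ≤ u → N a t → M a u :=
    ⟨fun a u => cd (∃ t < u + 1, N a t), by fun_prop, fun a t h => (cd_true.1 h).elim fun _ h => n2 _ _ h.2,
      fun a t u h k => cd_true.2 ⟨t, by omega, k⟩⟩
  obtain ⟨B, b1, b2⟩ : ∃ B : ℕ × ℕ → Bool, CI (J Y) B ∧ ∀ z, B z = cd (∃ k, z.2 ≤ k ∧ M (z.1, k) (g k) = false) :=
    ⟨_, RI.jump (RI.un (by fun_prop)), fun _ => rfl⟩
  refine (ci_dec (q := fun n => ∃ m, (∀ k < m, ∃ s, M (n, k) s) ∧ B (n, m) = false) (i_pw ((J_ri (J O)).trans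
    (J_mono ci_O))) (by fun_prop) fun n => ?_).of_eq fun n => by rw [Bool.eq_iff_iff, cd_true]
  simp only [t2, b2, ← Bool.not_eq_true, cd_true, not_exists, not_and, not_not]
  refine ⟨fun ⟨m, a, b⟩ k => (lt_or_ge k m).elim (fun c => (a k c).elim (m1 _)) fun c => m1 _ _ (b k c), fun a => ?_⟩
  obtain ⟨f, f1, f2⟩ := RI.choice (Y := O) (R := fun k s => N (n, k) s) (by fun_prop) fun k => n3 _ (a k)
  obtain ⟨m, c⟩ := eventually_atTop.1 (h f f1)
  exact ⟨m, fun k _ => ⟨_, m2 _ _ _ le_rfl (f2 k)⟩, fun k d => m2 _ _ _ (c k d) (f2 k)⟩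

theorem high_dom (h : CI (J Y) (J (J O))) : ∃ g, CI Y g ∧ Dom g := by
  obtain ⟨B, b1, b2⟩ : ∃ B : ℕ × ℕ → Bool, CI (J O) B ∧ ∀ z, B z = cd ((ofNat Code z.1).eval z.2).Dom :=
    ⟨_, RI.jump (i_re (r_pw re_dom)).un, fun _ => rfl⟩
  obtain ⟨T, t1, t2⟩ := sig2 (i_ci (ci_not ((RI.jump (RI.un (Y := J O) (p := fun e => ∃ x, B (e, x) = false)
    (by fun_prop))).trans h))).un
  simp only [b2, ← Bool.not_eq_true, cd_true, not_exists, not_not] at t2
  obtain ⟨E, e1, e2⟩ : ∃ E : (ℕ × ℕ) × ℕ → Prop, RE E ∧ ∀ z, E z ↔ z.2 ∈ (ofNat Code z.1.1).eval z.1.2 :=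
    ⟨_, r_comp (f := fun z : (ℕ × ℕ) × ℕ => ((ofNat Code z.1.1, z.1.2), z.2)) (r_graph eval_part) (by fun_prop),
      fun _ => pw_iff⟩
  have e3 : RI Y E := (i_re (r_pw e1)).un
  obtain ⟨G, g1, g2⟩ := RI.choice (Y := Y) (R := fun (z : ℕ × ℕ) y => E ((z.1.unpair.1, z.2), y) ∨ T z.1.unpair)
    (by fun_prop) fun z => by
      by_cases c : T z.1.unpair
      exacts [⟨0, .inr c⟩, ⟨_, .inl ((e2 _).2 (Part.get_mem ((t2 _).2 ⟨_, c⟩ z.2)))⟩]
  refine ⟨fun x => ∑ i ∈ Finset.range (x + 1), G (i, x), by fun_prop, fun f hf => ?_⟩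
  obtain ⟨c, hc⟩ := exists_code.1 (Partrec.nat_iff.1 (ci_comput hf).partrec)
  obtain ⟨k, a⟩ := (t2 (encode c)).1 fun x => by simp [hc]
  refine (eventually_ge_atTop (Nat.pair (encode c) k)).mono fun x b => le_trans ?_ (Finset.single_le_sum
    (f := fun i => G (i, x)) (fun _ _ => Nat.zero_le _) (Finset.mem_range.2 (Nat.lt_succ_of_le b)))
  have := g2 (Nat.pair (encode c) k, x)
  simp only [Nat.unpair_pair, a, or_false, e2, ofNat_encode, hc, PFun.coe_val, Part.mem_some_iff] at this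
  exact this.ge

theorem bmin (m : ℕ) (V : ℕ → Prop) : ∃ w ≤ m, (∀ k < w, ¬ V k) ∧ (w = m ∨ V w) := by
  classical
  have e : ∃ w, w = m ∨ V w := ⟨m, .inl rfl⟩
  exact ⟨_, Nat.find_min' e (.inl rfl), fun k h c => Nat.find_min e h (.inr c), Nat.find_spec e⟩

theorem modulus {N : ℕ → ℕ → Bool} (n1 : Primrec fun z : ℕ × ℕ => N z.1 z.2) (n2 : ∀ a t, N a t → Y a)
    (n3 : ∀ a t u, t ≤ u → N a t → N a u) (n4 : ∀ a, Y a → ∃ t, N a t) {g : ℕ → ℕ} (hg : CI Y g) :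
    ∃ act : ℕ → ℕ → Bool, CI O (fun z : ℕ × ℕ => act z.1 z.2) ∧ (∀ j, ∀ᶠ u in atTop, act j u = false) ∧
      RI Y (fun z : ℕ × ℕ => ∀ u > z.2, act z.1 u = false) ∧ ∀ j i, (∀ u > i, act j u = false) → g j ≤ i := by
  obtain ⟨M, m1, m2, -, m3⟩ := hg.ri.norm
  obtain ⟨V, v1, v2⟩ : ∃ V : (ℕ → Bool) → ℕ → ℕ → Bool, Primrec (fun z : ℕ × ℕ × ℕ => V (N · z.1) z.2.1 z.2.2) ∧
      ∀ X j k, V X j k = M ((j, k.unpair.1), pre X k.unpair.2.unpair.1) k.unpair.2.unpair.2 :=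
    ⟨_, by unfold pre; fun_prop, fun _ _ _ => rfl⟩
  obtain ⟨U, u1, u2⟩ : ∃ U : ℕ → ℕ → ℕ → Bool, Primrec (fun z : ℕ × ℕ × ℕ => U z.1 z.2.1 z.2.2) ∧
      ∀ u j k, U u j k = V (N · u) j k := ⟨_, v1, fun _ _ _ => rfl⟩
  have v3 : ∀ u j m, (∀ n < m, N n u = Y n) → ∀ k ≤ m, U u j k = V Y j k := fun u j m h k c => by
    rw [u2, v2, v2, ML.pre_congr fun n d => h n (d.trans_le ((Nat.unpair_left_le _).trans
      ((Nat.unpair_right_le _).trans c)))]
  obtain ⟨w, w1, w2⟩ := RI.choice (Y := O) (R := fun (z : ℕ × ℕ) w => w ≤ z.2 ∧ (∀ k < w, ¬ U z.2 z.1 k) ∧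
    (w = z.2 ∨ U z.2 z.1 w)) (by fun_prop) fun z => bmin _ _
  have a : ∀ m, ∀ᶠ u in atTop, ∀ n < m, N n u = Y n := fun m => (eventually_all_finite (finite_lt_nat m)).2
    fun n _ => by
      cases e : Y n
      · exact .of_forall fun u => Bool.eq_false_iff.2 fun h => by simp [n2 _ _ h] at e
      · exact (n4 n e).elim fun t h => (eventually_ge_atTop t).mono fun u k => n3 _ _ _ k h
  have b : ∀ j v, w (j, v) < v → (∀ n < w (j, v), N n v = Y n) → ∀ u ≥ v, w (j, u) = w (j, v) := fun j v h k u c => by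
    have e := v3 u j (w (j, v)) fun n d => by
      have := n2 n u
      have := n3 n v u c
      have := k n d
      cases f : Y n <;> simp_all
    have f := v3 v j _ k
    rcases lt_trichotomy (w (j, u)) (w (j, v)) with d | d | d
    · exact ((w2 (j, v)).2.1 _ d (by rw [f _ d.le, ← e _ d.le]; exact (w2 (j, u)).2.2.resolve_left (by omega))).elim
    · exact d
    · exact ((w2 (j, u)).2.1 _ d (by rw [e _ le_rfl, ← f _ le_rfl]; exact (w2 (j, v)).2.2.resolve_left h.ne)).elim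
  have c : ∀ j, ∀ᶠ v in atTop, w (j, v) < v ∧ ∀ n < w (j, v), N n v = Y n := fun j => by
    obtain ⟨n, t, h⟩ := m3 (j, g j) rfl
    filter_upwards [a (Nat.pair (g j) (Nat.pair n t)), eventually_gt_atTop (Nat.pair (g j) (Nat.pair n t))] with v c d
    have := not_lt.1 fun e => (w2 (j, v)).2.1 _ e (by rw [v3 v j _ c _ le_rfl, v2]; simpa using h)
    exact ⟨this.trans_lt d, fun n k => c n (k.trans_le this)⟩
  have := ci_self Y
  have : CI Y w := w1.trans ci_O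
  refine ⟨fun j u => cd (w (j, u) ≠ w (j, u - 1)), by fun_prop, fun j => ?_, (RI.un (p := fun z : ℕ × ℕ => ∃ v,
    (∀ u < v + 1, z.2 < u → w (z.1, u) = w (z.1, u - 1)) ∧ z.2 ≤ v ∧ w (z.1, v) < v ∧ ∀ n < w (z.1, v), N n v = Y n)
      (by fun_prop)).of_eq fun z => ?_, fun j i h => ?_⟩
  all_goals simp only [← Bool.not_eq_true, cd_true, not_not] at *
  · obtain ⟨v, h⟩ := (c j).exists
    exact (eventually_gt_atTop v).mono fun u k => by rw [b j v h.1 h.2 u k.le, b j v h.1 h.2 (u - 1) (by omega)]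
  · refine ⟨fun ⟨v, h1, h2, h3, h4⟩ u k => (lt_or_ge u (v + 1)).elim (h1 u · k) fun l => by
      rw [b _ v h3 h4 u (by omega), b _ v h3 h4 (u - 1) (by omega)], fun h => ?_⟩
    exact ((eventually_ge_atTop z.2).and (c z.1)).exists.imp fun v k => ⟨fun u _ => h u, k⟩
  · obtain ⟨v, k1, k2, k3⟩ := ((eventually_ge_atTop i).and (c j)).exists
    have e : w (j, v) = w (j, i) := by
      clear k2 k3
      induction k1 with
      | refl => rfl
      | step l ih => exact (h _ (Nat.lt_succ_of_le l)).trans ih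
    have := (w2 (j, v)).2.2.resolve_left k2.ne
    rw [v3 v j _ k3 _ le_rfl, v2] at this
    exact (m2 _ _ _ this).trans_le ((Nat.unpair_left_le _).trans (e ▸ (w2 (j, i)).1))

theorem cov {R : ℕ → List ℕ → ℕ → Prop} (h : RI O fun z : (ℕ × List ℕ) × ℕ => pw (R z.1.1 z.1.2 z.2))
    (k : ∀ s l, ∃ b, R s l b) : ∃ g, CI O g ∧ ∀ s, ∃ l, R s l (g s) ∧ ∀ i < s, l.getD i 0 = g i := by
  obtain ⟨f, f1, f2⟩ := RI.choice (R := fun (z : ℕ × List ℕ) b => R z.1 z.2 b) h fun z => k _ _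
  obtain ⟨g, g1, g2⟩ := ci_cov (f := fun s l => f (s, l)) f1
  exact ⟨g, g1, fun s => ⟨(List.range s).map g, g2 s ▸ f2 (s, _), fun i h => by simp [h]⟩⟩

theorem stab {u : ℕ → ℕ} (h : Monotone u) {b : ℕ} (k : ∀ t, u t < b) :
    ∃ a, (∀ᶠ t in atTop, u t = a) ∧ ∀ t, u t ≤ a := by
  have c : BddAbove (range u) := ⟨b, forall_mem_range.2 fun t => (k t).le⟩
  obtain ⟨s, e⟩ := Nat.sSup_mem (range_nonempty u) c
  have : ∀ t, u t ≤ u s := fun t => e ▸ le_csSup c ⟨t, rfl⟩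
  exact ⟨u s, (eventually_ge_atTop s).mono fun t a => (this t).antisymm (h a), this⟩

end Pool.Agent.H.MP_3eaa21_lc
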