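import Pool.Agent.H.MP_3eaa21_lc.A

set_option autoImplicit false

/-! Every high c.e. degree contains a maximal set. -/

namespace Pool.Agent.H.MP_3eaa21_lc

open Pool.Agent.Lib.helper21.PR Pool.Agent.H.MP_fa5791_lc Pool.Agent.H.MP_fa2eca_lc Filter Set Encodable Denumerable
open Nat.Partrec Nat.Partrec.Code Pool.Agent.Lib.helper21

attribute [local irreducible] Primrec Computable

variable {α : Type} [Primcodable α]

theorem estate : ∃ v : α → ℕ → ℕ → ℕ, Primrec (fun z : α × ℕ × ℕ => v z.1 z.2.1 z.2.2) ∧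
    (∀ b n, Monotone (v b · n)) ∧ (∀ b t n, v b t n < 2 ^ n) ∧
      (∀ b c t n m, n ≤ m → v b t m ≤ v c t m → v b t n ≤ v c t n) ∧
        ∀ W : α → Prop, RE W → ∃ n, ∀ b, ∀ᶠ t in atTop, v b t n % 2 = 1 ↔ W b := by
  obtain ⟨v, v1, v2, v3⟩ : ∃ v : α → ℕ → ℕ → ℕ, Primrec (fun z : α × ℕ × ℕ => v z.1 z.2.1 z.2.2) ∧
      (∀ b t, v b t 0 = 0) ∧ ∀ b t e, v b t (e + 1) = 2 * v b t e +
        if (evaln t (ofNat Code e) (encode b)).isSome then 1 else 0 :=
    ⟨fun b t n => Nat.rec 0 (fun e a => 2 * a + if (evaln t (ofNat Code e) (encode b)).isSome then 1 else 0) n,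
      by fun_prop, fun _ _ => rfl, fun _ _ _ => rfl⟩
  have a0 : ∀ {s t e n}, s ≤ t → (evaln s e n).isSome → (evaln t e n).isSome := fun h k =>
    (Option.isSome_iff_exists.1 k).elim fun _ k => Option.isSome_iff_exists.2 ⟨_, evaln_mono h k⟩
  refine ⟨v, v1, fun b n s t h => ?_, fun b t n => ?_, fun b c t n m h => ?_, fun W h => ?_⟩
  · induction n with
    | zero => simp [v2]
    | succ n ih =>
      have := a0 (e := ofNat Code n) (n := encode b) h
      simp only [v3] at *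
      split_ifs <;> first | omega | tauto
  · induction n with
    | zero => simp [v2]
    | succ n ih => rw [v3]; split_ifs <;> omega
  · induction h with
    | refl => exact id
    | step _ ih => exact fun k => ih (by rw [v3, v3] at k; split_ifs at k <;> omega)
  · obtain ⟨c, hc⟩ := re_code (r_pw h).re
    refine ⟨encode c + 1, fun b => Eventually.mono (p := fun t => (evaln t c (encode b)).isSome ↔ W b) ?_
      fun t k => by rw [v3, ofNat_encode, ← k]; split_ifs with d <;> simp [d]⟩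
    by_cases w : W b
    · obtain ⟨t, k⟩ := evaln_complete.1 (Part.get_mem ((hc b).1 w))
      exact (eventually_ge_atTop t).mono fun u h => iff_of_true (a0 h (Option.isSome_iff_exists.2 ⟨_, k⟩)) w
    · exact .of_forall fun t => iff_of_false (fun k => (Option.isSome_iff_exists.1 k).elim fun _ k =>
        w ((hc b).2 (Part.dom_iff_mem.2 ⟨_, evaln_sound k⟩))) w

theorem martin {A : ℕ → Bool} (hA : RE (A · = true)) (h : CI (J A) (J (J O))) : ∃ E : ℕ → Bool,
    RE (E · = false) ∧ CI A E ∧ CI E A ∧ {n | E n}.Infinite ∧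
      ∀ W : ℕ → Prop, RE W → {n | E n ∧ W n}.Finite ∨ {n | E n ∧ ¬ W n}.Finite := by
  classical
  obtain ⟨N, n1, n2, n3, n4⟩ := re_bool (r_pw hA).re
  obtain ⟨g, g1, g2⟩ := high_dom h
  have := ci_self A
  obtain ⟨τ, t1, t2⟩ := RI.choice (Y := A) (R := fun j t => ∀ n < j + 1, A n = false ∨ N n t) (by fun_prop) fun j =>
    ((eventually_all_finite (finite_lt_nat (j + 1))).2 fun n _ => show ∀ᶠ t in atTop, A n = false ∨ N n t from by
      cases e : A n
      · simp
      · exact (n4 n e).elim fun t h => (eventually_ge_atTop t).mono fun u k => .inr (n3 _ _ _ k h)).exists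
  obtain ⟨act, a1, a2, a3, a4⟩ := modulus n1 n2 n3 n4 (g := fun j => g j + τ j) (by fun_prop)
  obtain ⟨par, p0, hp⟩ := cov (R := fun s l b => b ≤ s - 1 ∧ (∀ j < b, ¬ ((∀ u < s, j < u → j ≤ l.getD u 0) ∧
    act j s)) ∧ (b = s - 1 ∨ (∀ u < s, b < u → b ≤ l.getD u 0) ∧ act b s)) (by fun_prop) fun s l => bmin _ _
  obtain ⟨al, l1, l2⟩ : ∃ al : ℕ → ℕ → Bool, CI O (fun z : ℕ × ℕ => al z.1 z.2) ∧ ∀ i s, al i s ↔
      ∀ u < s, i < u → i ≤ par u := ⟨fun _ _ => cd _, by fun_prop, fun _ _ => cd_true⟩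
  have hp' : ∀ s, par s ≤ s - 1 ∧ (∀ j < par s, al j s → act j s = false) ∧ al (par s) s ∧
      (par s < s - 1 → act (par s) s) := fun s => by
    obtain ⟨l, ⟨c1, c2, c3⟩, c4⟩ := hp s
    simp +contextual only [c4, ← l2] at c2 c3
    exact ⟨c1, fun j h k => Bool.eq_false_iff.2 fun d => c2 j h ⟨k, d⟩, c3.elim (fun e => (l2 _ _).2 (by omega))
      (·.1), fun h => (c3.resolve_left h.ne).2⟩
  choose p1 p2 p3 p4 using hp'
  obtain ⟨tru, tr⟩ : ∃ tru : ℕ → Prop, ∀ i, tru i ↔ ∀ u > i, i ≤ par u := ⟨_, fun _ => .rfl⟩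
  have q1 : ∀ {i}, tru i → ∀ s, al i s := fun h s => (l2 _ _).2 fun u _ => (tr _).1 h u
  have q2 : ∀ {i s}, tru s → i ≤ s → al i (s + 1) → tru i := fun {i s} h c k => (tr _).2 fun u d => by
    have := (l2 _ _).1 k u
    have := (tr _).1 h u
    omega
  have q3 : ∀ {s}, tru s → 0 < s → tru (par s) ∧ ∀ u > s, act (par s) u = false := fun {s} h c => by
    have := p1 s
    have e := q2 h (i := par s) (by omega) ((l2 _ _).2 fun u d k => (Nat.lt_succ_iff_lt_or_eq.1 d).elim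
      (fun d => (l2 _ _).1 (p3 s) u d k) fun d => d ▸ le_rfl)
    exact ⟨e, fun u d => p2 u _ (by have := (tr _).1 h u d; omega) (q1 e u)⟩
  have q4 : ∀ n, ∃ s ≥ n, tru s := fun n => by
    induction n with
    | zero => exact ⟨0, le_rfl, (tr _).2 fun _ _ => Nat.zero_le _⟩
    | succ n ih =>
      obtain ⟨i, c, h⟩ := ih
      obtain ⟨M, k⟩ := eventually_atTop.1 (a2 i)
      have b : BddAbove {u | i < u ∧ par u ≤ i} := ⟨M + i + 1, fun u d => not_lt.1 fun e => by
        have f := d.2.antisymm ((tr _).1 h u d.1)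
        have := p4 u (by omega)
        rw [f, k u (by omega)] at this
        cases this⟩
      obtain ⟨s1, s2⟩ := Nat.sSup_mem (s := {u | i < u ∧ par u ≤ i}) ⟨i + 1, by simp, p1 (i + 1)⟩ b
      refine ⟨_, (Nat.succ_le_succ c).trans s1, (tr _).2 fun u d => not_lt.1 fun e => ?_⟩
      have := (l2 _ _).1 (p3 u) _ d e
      exact d.not_ge (le_csSup b ⟨s1.trans d, this.trans s2⟩)
  have q5 : RI A tru := by
    obtain ⟨S, s1, s2⟩ : ∃ S : ℕ × ℕ → Prop, RI A S ∧ ∀ z, S z ↔ ∀ u > z.2, act z.1 u = false := ⟨_, a3, fun _ => .rfl⟩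
    have : CI A _ := l1.trans ci_O
    refine (RI.un (p := fun i => ∀ j < i, al j (i + 1) = false ∨ S (j, i)) (by fun_prop)).of_eq fun i =>
      ⟨fun h => (tr _).2 fun u d => not_lt.1 fun e => ?_, fun h j c => or_iff_not_imp_left.2 fun d =>
        (s2 _).2 fun u e => p2 u j (c.trans_le ((tr _).1 h u e)) (q1 (q2 h c.le (by simpa using d)) u)⟩
    rcases h _ e with k | k
    · exact Bool.eq_false_iff.1 k ((l2 _ _).2 fun w x => (l2 _ _).1 (p3 u) w (by omega))
    · exact Bool.eq_false_iff.1 ((s2 _).1 k u d) (p4 u (by omega))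
  obtain ⟨v, v1, v2, v3, v4, v5⟩ := estate (α := ℕ)
  obtain ⟨c, c0, hc⟩ := cov (R := fun s l b => (b = s ∨ ∃ i, i < s ∧ (par s < i ∧ al i s) ∧ l.getD i 0 = b) ∧
    ∀ i < s, par s < i ∧ al i s → v (l.getD i 0) s s ≤ v b s s) (by fun_prop) fun s l => by
      by_cases e : ((Finset.range s).filter fun i => par s < i ∧ al i s).Nonempty
      · obtain ⟨i, a, b⟩ := Finset.exists_max_image _ (fun i => v (l.getD i 0) s s) e
        simp only [Finset.mem_filter, Finset.mem_range] at a b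
        exact ⟨_, .inr ⟨i, a.1, a.2, rfl⟩, fun j x y => b j ⟨x, y⟩⟩
      · exact ⟨s, .inl rfl, fun j x y => (e ⟨j, by simp [x, y]⟩).elim⟩
  have hc' : ∀ s, (c s = s ∨ ∃ i < s, (par s < i ∧ al i s) ∧ c i = c s) ∧
      ∀ i < s, par s < i ∧ al i s → v (c i) s s ≤ v (c s) s s := fun s => by
    obtain ⟨l, ⟨c1, c2⟩, c4⟩ := hc s
    exact ⟨c1.imp_right fun ⟨i, x, y, z⟩ => ⟨i, x, y, c4 i x ▸ z⟩, fun i x y => c4 i x ▸ c2 i x y⟩
  choose c1 c2 using hc'
  have c3 : ∀ s, c s ≤ s ∧ (0 < s → par s < c s) := fun s => by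
    induction s using Nat.strong_induction_on with
    | _ s ih =>
      have := p1 s
      rcases c1 s with e | ⟨i, x, ⟨y, -⟩, z⟩
      · omega
      · have := ih i x
        have := (l2 _ _).1 (p3 s) i x y
        omega
  have c4 : ∀ {i s}, tru i → i < s → c i < c s := fun {i s} h k => by
    have := (tr _).1 h s k
    have := c3 i
    have := c3 s
    omega
  obtain ⟨E, hE⟩ : ∃ E : ℕ → Bool, ∀ n, E n ↔ ∃ i, tru i ∧ c i = n := ⟨fun _ => cd _, fun _ => cd_true⟩
  have e1 : RE (E · = false) := by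
    refine ri_re ((RI.un (p := fun n => ∃ u, n < u ∧ ∀ i < u, al i u → c i ≠ n) (by fun_prop)).of_eq fun n => ?_)
    rw [← Bool.not_eq_true, hE]
    refine ⟨fun ⟨u, h, k⟩ ⟨i, x, y⟩ => ?_, fun h => (q4 n).elim fun s k => ⟨s + 1, by omega, fun i x y z =>
      h ⟨i, q2 k.2 (by omega) y, z⟩⟩⟩
    have : ∀ w ≥ u, ∀ i < w, al i w → c i ≠ n := fun w d => by
      induction d with
      | refl => exact k
      | @step w d ih =>
        intro i x y
        rcases (Nat.lt_succ_iff_lt_or_eq.1 x) with x | rfl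
        · exact ih i x ((l2 _ _).2 fun r s => (l2 _ _).1 y r (Nat.lt_succ_of_lt s))
        · rcases c1 i with e | ⟨j, x, y, z⟩
          exacts [by have : u ≤ i := d; omega, z ▸ ih j x y.2]
    exact this (max u (i + 1)) (le_max_left _ _) i (by omega) (q1 x _) y
  have e2 : ∀ n, ∃ m > n, E m := fun n => by
    obtain ⟨i, x, y⟩ := q4 n
    exact (q4 (i + 1)).elim fun s k => ⟨c s, by have := c3 s; have := (tr _).1 y s k.1; omega, (hE _).2 ⟨s, k.2, rfl⟩⟩
  have e3 : ∀ {S : Set ℕ} {p : ℕ → Prop}, S.Finite → (∀ i, tru i → p (c i) → i ∈ S) → {n | E n ∧ p n}.Finite :=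
    fun h k => (h.image c).subset fun n ⟨x, y⟩ => ((hE n).1 x).elim fun i z => ⟨i, k i z.1 (z.2 ▸ y), z.2⟩
  refine ⟨E, e1, ?_, ?_, infinite_of_forall_exists_gt fun n => (e2 n).imp fun _ h => ⟨h.2, h.1⟩, fun W hW => ?_⟩
  · have : CI A c := c0.trans ci_O
    exact (ci_dec (p := fun n => ∃ i, tru i ∧ c i = n) (by fun_prop) (i_re (r_pw e1)) fun n => by
      rw [← hE, Bool.not_eq_true]).of_eq fun n => by rw [Bool.eq_iff_iff, cd_true, hE]
  · have := ci_self E
    refine (ci_dec (q := fun n => ∃ x y z, n < x ∧ x < y ∧ y < z ∧ E x ∧ E y ∧ E z ∧ N n z = false) (i_re (r_pw hA))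
      (by fun_prop) fun n => ⟨fun ⟨x, y, z, h1, h2, h3, h4, h5, h6, h7⟩ k => ?_, fun k => ?_⟩).of_eq
        fun n => by rw [Bool.eq_iff_iff, cd_true]
    · obtain ⟨i, i1, rfl⟩ := (hE _).1 h4
      obtain ⟨s, s1, rfl⟩ := (hE _).1 h5
      obtain ⟨r, r1, rfl⟩ := (hE _).1 h6
      have x : ∀ {i s}, tru s → c i < c s → i < s := fun h k => not_le.1 fun d => d.eq_or_lt.elim
        (fun e => k.ne (e ▸ rfl)) fun d => (c4 h d).not_gt k
      have := (tr _).1 i1 s (x s1 h2)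
      have := (tr _).1 s1 r (x r1 h3)
      have := c3 i
      have := c3 r
      have := x s1 h2
      have := x r1 h3
      have := a4 _ _ (q3 s1 (by omega)).2
      rcases t2 (par s) n (by omega) with d | d
      · simp [d] at k
      · simp [n3 _ _ (c r) (by omega) d] at h7
    · obtain ⟨x, x1, x2⟩ := e2 n
      obtain ⟨y, y1, y2⟩ := e2 x
      obtain ⟨z, z1, z2⟩ := e2 y
      exact ⟨x, y, z, x1, y1, z1, x2, y2, z2, Bool.eq_false_iff.2 fun d => k (n2 _ _ d)⟩
  obtain ⟨n, hn⟩ := v5 W hW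
  choose f f1 f2 using fun b => stab (v2 b n) fun t => v3 b t n
  have ex : ∃ θ, {i | tru i ∧ θ ≤ f (c i)}.Finite := ⟨2 ^ n, finite_empty.subset fun i h =>
    (f1 (c i)).exists.elim fun t k => (k ▸ v3 _ t n).not_ge h.2⟩
  obtain ⟨θ, e⟩ := Nat.exists_eq_succ_of_ne_zero (n := Nat.find ex) fun h => absurd (Nat.find_spec ex)
    (infinite_of_forall_exists_gt fun m => (q4 (m + 1)).imp fun s k => ⟨⟨k.2, h.le.trans (Nat.zero_le _)⟩, k.1⟩)
  obtain ⟨H, h1, h2⟩ := RI.choice (Y := O) (R := fun t u => n ≤ u ∧ ∃ i, i < u + 1 ∧ t < i ∧ al i (u + 1) ∧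
    θ ≤ v (c i) u n) (by fun_prop) fun t => by
      obtain ⟨i, x, y⟩ := Infinite.exists_gt (Nat.find_min ex (e ▸ θ.lt_succ_self)) t
      obtain ⟨u, k⟩ := ((eventually_ge_atTop (n + i)).and (f1 (c i))).exists
      exact ⟨u, by omega, i, by omega, y, q1 x.1 _, x.2.trans k.2.ge⟩
  obtain ⟨M, hM⟩ := eventually_atTop.1 (g2 H h1)
  obtain ⟨r, r1, r2⟩ := q4 M
  have key : ∀ s > r, tru s → θ ≤ f (c s) := fun s x y => by
    obtain ⟨z1, z2⟩ := q3 y (by omega)
    have := a4 _ _ z2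
    have := hM (par s) (r1.trans ((tr _).1 r2 s x))
    have : ∀ u ≥ H (par s), ∃ i < u + 1, par s < i ∧ al i (u + 1) ∧ θ ≤ v (c i) u n := fun u d => by
      induction d with
      | refl => exact (h2 _).2
      | @step u d ih =>
        obtain ⟨i, i1, i2, i3, i4⟩ := ih
        have := i4.trans (v2 _ n u.le_succ)
        by_cases k : i ≤ par (u + 1)
        · exact ⟨i, by omega, i2, (l2 _ _).2 fun w x y => (Nat.lt_succ_iff_lt_or_eq.1 x).elim
            (fun x => (l2 _ _).1 i3 w x y) fun x => x ▸ k, this⟩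
        · exact ⟨u + 1, by omega, by omega, (l2 _ _).2 (by omega), this.trans (v4 _ _ _ _ _
            ((h2 _).1.trans (Nat.le_succ_of_le d)) (c2 _ i i1 ⟨not_le.1 k, i3⟩))⟩
    obtain ⟨i, i1, i2, i3, i4⟩ := this s (by omega)
    have := (l2 _ _).1 i3 s
    exact i4.trans ((show i = s by omega) ▸ f2 _ _)
  have k : ∀ i, tru i → ¬ (W (c i) ↔ θ % 2 = 1) → i ∈ Iic r ∪ {i | tru i ∧ Nat.find ex ≤ f (c i)} := fun i x y =>
    or_iff_not_imp_left.2 fun z => ⟨x, not_lt.1 fun w => y (((hn (c i)).and (f1 (c i))).exists.elim fun t d => by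
      rw [← d.1, d.2, show f (c i) = θ by have := key i (not_le.1 z) x; omega])⟩
  have := (finite_Iic r).union (Nat.find_spec ex)
  by_cases d : θ % 2 = 1
  exacts [.inr (e3 this fun i x y => k i x (by simp [d, y])), .inl (e3 this fun i x y => k i x (by simp [d, y]))]

end Pool.Agent.H.MP_3eaa21_lc
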