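import Pool.Agent.H.MP_3eaa21_lc.B

set_option autoImplicit false

/-! Effectively closed classes and their lattices of subclasses. -/

namespace Pool.Agent.H.MP_3eaa21_lc

open Pool.Agent.Lib.helper21.PR Pool.Agent.H.MP_fa5791_lc Pool.Agent.H.MP_fa2eca_lc Filter Set Encodable Denumerable
open Nat.Partrec Nat.Partrec.Code Pool.Agent.Lib.helper21

attribute [local irreducible] Primrec Computable

/-- the set of paths through a computable tree -/
def IsPi (P : Set (ℕ → Bool)) : Prop := ∃ T : Set (List Bool), ComputablePred (· ∈ T) ∧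
  (∀ σ τ, σ <+: τ → τ ∈ T → σ ∈ T) ∧ P = {x | ∀ n, pre x n ∈ T}

/-- extendible nodes -/
def Ext (P : Set (ℕ → Bool)) : Set (List Bool) := {σ | ∃ x ∈ P, pre x σ.length = σ}

/-- finitely many subclasses modulo finite differences -/
def FinStar (P : Set (ℕ → Bool)) : Prop := ∃ F : Set (Set (ℕ → Bool)), F.Finite ∧
  ∀ Q, IsPi Q → Q ⊆ P → ∃ R ∈ F, (symmDiff Q R).Finite

/-- every subclass has a complement modulo finite differences -/
def BoolStar (P : Set (ℕ → Bool)) : Prop := ∀ Q, IsPi Q → Q ⊆ P →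
  ∃ R, IsPi R ∧ R ⊆ P ∧ (Q ∩ R).Finite ∧ (P \ (Q ∪ R)).Finite

open Classical in
/-- the set of codes of a set of strings -/
noncomputable def code (S : Set (List Bool)) (n : ℕ) : Bool := decide (n ∈ encode '' S)

theorem code_iff {S : Set (List Bool)} {σ : List Bool} : code S (encode σ) ↔ σ ∈ S := by simp [code]

theorem pi_of {W : List Bool → Prop} (h : RI O W) : IsPi {x | ∀ n, ¬ W (pre x n)} := by
  obtain ⟨N, n1, n2, n3, n4⟩ := re_bool (r_pw (ri_re h)).re
  refine ⟨{σ | ∀ n < σ.length + 1, N (σ.take n) σ.length = false}, (pred (by fun_prop)).computablePred,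
    fun σ τ k c n d => Bool.eq_false_iff.2 fun e => Bool.eq_false_iff.1 (c n (d.trans_le (Nat.succ_le_succ
      k.length_le))) (n3 _ _ _ k.length_le ?_), Set.ext fun x => ⟨fun k n m c => Bool.eq_false_iff.2 fun e =>
        k m (n2 _ (pre x n).length ?_), fun k n c => (n4 _ c).elim fun t d => Bool.eq_false_iff.1 (k (n + t) n (by
          rw [pre_len]; omega)) ?_⟩⟩
  · obtain ⟨l, rfl⟩ := k
    rwa [List.take_append_of_le_length (by omega)]
  · rwa [pre_take _ (by rw [pre_len] at c; omega)] at e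
  · rw [pre_take _ (by omega), pre_len]
    exact n3 _ _ _ (by omega) d

theorem IsPi.ex {P : Set (ℕ → Bool)} (h : IsPi P) : ∃ T : List Bool → Bool, CI O T ∧ ∀ x, x ∈ P ↔ ∀ n, T (pre x n) := by
  obtain ⟨T, a, -, rfl⟩ := h
  obtain ⟨f, b, c⟩ := ComputablePred.computable_iff.1 a
  exact ⟨f, Computable.ci b, fun x => forall_congr' fun n => (congrFun c _).to_iff⟩

theorem IsPi.ext {P : Set (ℕ → Bool)} (h : IsPi P) : RI O (· ∉ Ext P) := by
  obtain ⟨T, a, b⟩ := h.ex
  obtain ⟨π, p1, p2⟩ : ∃ π : ℕ → ℕ → List Bool, Primrec (fun z : ℕ × ℕ => π z.1 z.2) ∧ ∀ m k, π m k =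
    pre (Fn.tb m) k := ⟨_, by fun_prop, fun _ _ => rfl⟩
  refine (RI.un (p := fun σ : List Bool => ∃ n, σ.length ≤ n ∧ ∀ m < 2 ^ n, π m σ.length ≠ σ ∨ ∃ k < n,
    T (π m k) = false) (by fun_prop)).of_eq fun σ => ⟨fun ⟨n, c, d⟩ ⟨x, e, f⟩ => ?_, fun c => by_contra fun d => ?_⟩
  · have : ∀ k ≤ n, π (Fn.cd x n) k = pre x k := fun k g => by
      rw [p2, ML.pre_congr fun i j => Fn.tb_cd x n i (j.trans_le g)]
    rcases d _ (Fn.cd_lt x n) with d | ⟨k, d, g⟩
    · exact d (by rwa [this _ c])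
    · simp [this _ d.le, (b x).1 e k] at g
  · obtain ⟨x, e⟩ := Fn.compact (fun s x => T (pre x s) ∧ (s = σ.length → pre x s = σ)) (fun s x y e => by
      beta_reduce; rw [ML.pre_congr e]; exact id) fun s => by
        push Not at d
        obtain ⟨m, -, e, f⟩ := d (s + 1 + σ.length) (by omega)
        exact ⟨Fn.tb m, fun u g => ⟨by simpa [p2] using f u (by omega), fun g => by rwa [g, ← p2]⟩⟩
    exact c ⟨x, (b x).2 fun n => (e n).1, (e _).2 rfl⟩

theorem cnt (E : ℕ → Prop) : ∃ c : ℕ → ℕ → ℕ, (∀ u w (_ : DecidablePred fun k => u ≤ k ∧ E k), c u w =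
    ((Finset.range w).filter fun k => u ≤ k ∧ E k).card) ∧ (∀ u w, w ≤ u → c u w = 0) ∧
      (∀ u w, c u (w + 1) = c u w ∨ E w ∧ c u (w + 1) = c u w + 1) ∧ (∀ u w, u ≤ w → E w → c u w < c u (w + 1)) ∧
        ∀ u b w, c u w ≤ c u b + c b w ∧ (b ≤ u → c u w ≤ c b w) := by
  classical
  refine ⟨fun u w => ((Finset.range w).filter fun k => u ≤ k ∧ E k).card, fun u w _ => by beta_reduce; congr, fun u w h => ?_,
    fun u w => ?_, fun u w h k => ?_, fun u b w => ⟨(Finset.card_le_card fun k => ?_).trans (Finset.card_union_le _ _),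
      fun h => Finset.card_le_card fun k => ?_⟩⟩
  · simp; omega
  · by_cases h : u ≤ w ∧ E w <;> simp [Finset.range_add_one, Finset.filter_insert, h]
  · simp [Finset.range_add_one, Finset.filter_insert, h, k]
  · simp only [Finset.mem_filter, Finset.mem_range, Finset.mem_union]
    exact fun h => (lt_or_ge k b).imp (⟨·, h.2⟩) (⟨h.1, ·, h.2.2⟩)
  · simp only [Finset.mem_filter, Finset.mem_range]
    exact fun c => ⟨c.1, h.trans c.2.1, c.2.2⟩

theorem dense {E : ℕ → Bool} (h : RI O (E · = false)) (hi : {n | E n}.Infinite) (k : ∀ V : ℕ → ℕ → Prop,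
    (∀ j, RI O (V j)) → ∃ j j', j < j' ∧ {n | E n ∧ V j' n ∧ ¬ V j n}.Finite) : ∃ g, CI E g ∧ Dom g := by
  classical
  obtain ⟨N, n1, n2, n3, n4⟩ := re_bool (r_pw (ri_re h)).re
  obtain ⟨c, c1, c2, c3, c4, c5⟩ := cnt (E ·)
  have mono : ∀ u, Monotone (c u) := fun u => monotone_nat_of_le_succ fun w => by have := c3 u w; omega
  have := ci_self E
  obtain ⟨g, g1, g2⟩ := RI.choice (Y := E) (R := fun n m => 2 * n + 1 < ((Finset.range m).filter fun k =>
      n ≤ k ∧ E k).card) (by fun_prop) fun n => by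
    simp only [← c1]
    induction 2 * n + 1 with
    | zero => exact (hi.exists_gt n).elim fun w h => ⟨_, (Nat.zero_le _).trans_lt (c4 n w h.2.le h.1)⟩
    | succ j ih =>
      obtain ⟨m, a⟩ := ih
      obtain ⟨w, b, d⟩ := hi.exists_gt (m + n)
      exact ⟨_, (Nat.succ_le_of_lt (a.trans_le (mono n (by omega : m ≤ w)))).trans_lt (c4 n w (by omega) b)⟩
  refine ⟨g, g1, fun f hf => ?_⟩
  obtain ⟨F, f1, f2, f3⟩ : ∃ F : ℕ → ℕ, CI O F ∧ Monotone F ∧ ∀ n, n < F n ∧ f n ≤ F n :=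
    ⟨fun n => n + 1 + ∑ i ∈ Finset.range (n + 1), f i, by fun_prop, monotone_nat_of_le_succ fun n => by
      rw [Finset.sum_range_succ _ (n + 1)]; omega, fun n => by beta_reduce; rw [Finset.sum_range_succ]; omega⟩
  obtain ⟨H, h1, h2, h3⟩ : ∃ H : ℕ → ℕ, CI O H ∧ H 0 = 0 ∧ ∀ i, H (i + 1) = if F (H i) ≤ i + 1 then i + 1 else H i :=
    ⟨fun i => Nat.rec 0 (fun i a => if F a ≤ i + 1 then i + 1 else a) i, by fun_prop, rfl, fun _ => rfl⟩
  have h4 : ∀ i, H i ≤ i ∧ i < F (H i) ∧ (∀ k ≤ i, H i ≤ k → H k = H i) ∧ (0 < H i → F (H (H i - 1)) ≤ H i) :=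
    fun i => by
      induction i with
      | zero => simpa [h2] using (f3 0).1
      | succ i ih =>
        have := (f3 (i + 1)).1
        have e := h3 i
        split_ifs at e with a <;> rw [e]
        · exact ⟨le_rfl, this, fun k x y => by rw [x.antisymm y, e], fun _ => a⟩
        · exact ⟨by omega, by omega, fun k x y => x.eq_or_lt.elim (fun x => x ▸ e) fun x =>
            ih.2.2.1 k (by omega) y, ih.2.2.2⟩
  obtain ⟨j, j', a, b⟩ := k (fun j i => ∃ s, ((Finset.range i).filter fun k => H i ≤ k ∧ N k s = false).card < j)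
    fun j => RI.un (by fun_prop)
  have e : ∀ j i, (∃ s, ((Finset.range i).filter fun k => H i ≤ k ∧ N k s = false).card < j) ↔ c (H i) i < j :=
    fun j i => by
      rw [c1 _ _ inferInstance]
      refine ⟨fun ⟨s, d⟩ => (Finset.card_le_card (Finset.monotone_filter_right _ fun k _ e => ⟨e.1,
        Bool.eq_false_iff.2 fun l => by simp [n2 _ _ l] at e⟩)).trans_lt d, fun d => ?_⟩
      obtain ⟨s, e⟩ := ((eventually_all_finite (finite_lt_nat i)).2 fun k _ => show ∀ᶠ s in atTop,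
          N k s = false → E k from by
        cases e : E k
        · exact (n4 k e).elim fun t h => (eventually_ge_atTop t).mono fun u l => by simp [n3 _ _ _ l h]
        · simp).exists
      exact ⟨s, (Finset.card_le_card (Finset.monotone_filter_right _ fun k l m =>
        ⟨m.1, e k (Finset.mem_range.1 l) m.2⟩)).trans_lt d⟩
  simp only [e] at b
  obtain ⟨M, b⟩ := b.bddAbove
  have m : ∀ w, M < H w → c (H w) w ≤ j := fun w d => by
    have : ∀ i ≤ w, c (H w) i ≤ j := fun i l => by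
      induction i with
      | zero => simp [c2]
      | succ i ih =>
        by_cases r : H w ≤ i
        · have := ih (by omega)
          have := (h4 w).2.2.1 i (by omega) r
          rcases c3 (H w) i with s | ⟨s, t⟩
          · omega
          · exact not_lt.1 fun u => (d.trans_le r).not_ge (b ⟨s, by rw [this]; omega, by rw [this]; omega⟩)
        · simp [c2 _ _ (not_le.1 r)]
    exact this w le_rfl
  filter_upwards [eventually_ge_atTop j, eventually_ge_atTop (F (F M + 1))] with n x y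
  refine (f3 n).2.trans (not_lt.1 fun z => ?_)
  have l : ∀ w, F M ≤ w → M < H w := fun w d => not_le.1 fun r => (h4 w).2.1.not_ge ((f2 r).trans d)
  have r := g2 n
  rw [← c1] at r
  have := f3 (F M + 1)
  have := f3 n
  have := m _ (l (g n) (not_lt.1 fun d => by have := c2 n (g n) (by omega); omega))
  have := c5 n (H (g n)) (g n)
  by_cases d : H (g n) ≤ n
  · have := (c5 n (H (g n)) (g n)).2 d
    omega
  have := (h4 (g n)).2.2.2 (by omega)
  have := (h4 (g n)).1
  have := (c5 n (H (H (g n) - 1)) (H (g n) - 1)).2 (not_lt.1 fun s => by have := f2 s.le; omega)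
  have := m _ (l (H (g n) - 1) (by omega))
  have := c3 n (H (g n) - 1)
  rw [Nat.sub_add_cancel (by omega)] at this
  omega

theorem high_of {P : Set (ℕ → Bool)} (h : IsPi P) (hf : FinStar P) (hb : ¬ BoolStar P) :
    CI (J (code (Ext P))) (J (J O)) := by
  obtain ⟨F, f1, f2⟩ := hf
  obtain ⟨Q, hQ⟩ := not_forall.1 hb
  simp only [Classical.not_imp] at hQ
  obtain ⟨T, t1, t2⟩ := hQ.1.ex
  obtain ⟨U, u1, u2⟩ := h.ex
  obtain ⟨D, d1, d2⟩ : ∃ D : List Bool → Bool, CI O D ∧ ∀ σ, D σ ↔ T σ = false ∧ ∀ n < σ.length, T (σ.take n) := by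
    obtain ⟨π, p1, p2⟩ : ∃ π : ℕ → List Bool → List Bool, Primrec (fun z : ℕ × List Bool => π z.1 z.2) ∧
      ∀ m k, π m k = k.take m := ⟨_, by fun_prop, fun _ _ => rfl⟩
    exact ⟨fun σ => cd (T σ = false ∧ ∀ n < σ.length, T (π n σ)), by fun_prop, by simp [p2]⟩
  obtain ⟨q, q1, q2⟩ : ∃ q : ℕ → List Bool, Primrec q ∧ ∀ x, q (encode x) = x :=
    ⟨fun n => (decode n).getD [], by fun_prop, by simp⟩
  obtain ⟨E, e1⟩ : ∃ E : ℕ → Bool, ∀ i, E i = cd (encode (q i) = i ∧ D (q i) ∧ code (Ext P) i) := ⟨_, fun _ => rfl⟩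
  have e2 : ∀ i, E i ↔ ∃ x ∈ P, ∃ n, D (pre x n) ∧ encode (pre x n) = i := fun i => by
    rw [e1, cd_true]
    refine ⟨fun ⟨a, b, c⟩ => ?_, by rintro ⟨x, a, n, b, rfl⟩; exact ⟨by rw [q2], by rwa [q2], code_iff.2
      ⟨x, a, by rw [pre_len]⟩⟩⟩
    obtain ⟨x, c, d⟩ := code_iff.1 (a ▸ c :)
    exact ⟨x, c, _, d.symm ▸ b, d.symm ▸ a⟩
  have k1 : ∀ x n, D (pre x n) → sInf {n | T (pre x n) = false} = n := fun x n a => IsLeast.csInf_eq
    ⟨((d2 _).1 a).1, fun m b => not_lt.1 fun c => by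
      simpa [pre_take _ c.le, show T (pre x m) = false from b] using ((d2 _).1 a).2 m (by rwa [pre_len])⟩
  refine (dense (E := E) ?_ (fun a => hQ.2.2 ⟨P \ Q, ?_, diff_subset, by simp, by simp [diff_eq_empty.2]⟩)
    fun V hV => ?_).elim fun g ⟨g1, g2⟩ => ?_
  rotate_right
  · have := ci_self (code (Ext P))
    have : CI (code (Ext P)) D := d1.trans ci_O
    exact dom_high (g1.trans (CI.of_eq (by fun_prop) fun i => (e1 i).symm)) g2
  · obtain ⟨X, x1, x2⟩ : ∃ X : List Bool → Prop, RI O X ∧ ∀ σ, X σ ↔ σ ∉ Ext P := ⟨_, h.ext, fun _ => .rfl⟩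
    refine (RI.un (p := fun i => encode (q i) ≠ i ∨ D (q i) = false ∨ X (q i)) (by fun_prop)).of_eq fun i => ?_
    rw [e1, x2, ← code_iff, ← Bool.not_eq_true, ← Bool.not_eq_true, cd_true]
    by_cases c : encode (q i) = i <;> simp [c, imp_iff_not_or]
  · obtain ⟨L, a⟩ := (a.image fun i => (q i).length).bddAbove
    obtain ⟨π, p1, p2⟩ : ∃ π : ℕ → List Bool → List Bool, Primrec (fun z : ℕ × List Bool => π z.1 z.2) ∧
      ∀ m k, π m k = k.take m := ⟨_, by fun_prop, fun _ _ => rfl⟩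
    refine (congrArg IsPi (Set.ext fun x => ?_)).mp (pi_of (W := fun σ => U σ = false ∨ σ.length = L ∧
      ∀ n < L + 1, T (π n σ)) (RI.un (by fun_prop)))
    simp only [mem_setOf, not_or, Bool.not_eq_false, forall_and, ← u2, mem_diff, pre_len, p2, t2]
    refine and_congr_right fun b => ⟨fun c d => c L ⟨rfl, fun n e => by rw [pre_take _ (by omega)]; exact d n⟩,
      fun c n ⟨d, e⟩ => ?_⟩
    have ex : ∃ n, T (pre x n) = false := by simpa using c
    have := a ⟨_, (e2 _).2 ⟨x, b, Nat.find ex, (d2 _).2 ⟨Nat.find_spec ex, fun m k => by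
      rw [pre_len] at k; simpa [pre_take _ k.le] using Nat.find_min ex k⟩, rfl⟩, rfl⟩
    simp only [q2, pre_len] at this
    simpa [pre_take _ (d ▸ this), Nat.find_spec ex] using e _ (Nat.lt_succ_of_le this)
  · have : ∀ j, ∃ R ∈ F, (symmDiff {x | ∀ n, ¬ (U (pre x n) = false ∨ D (pre x n) ∧ V j (encode (pre x n)))}
        R).Finite := fun j => f2 _ (pi_of (W := fun σ => U σ = false ∨ D σ ∧ V j (encode σ)) (RI.un (by
          have := hV j; fun_prop))) fun x a => (u2 x).2 fun n => by simpa using (not_or.1 (a n)).1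
    choose R r1 r2 using this
    obtain ⟨j, -, j', -, a, b⟩ := infinite_univ.exists_lt_map_eq_of_mapsTo (fun j _ => r1 j) f1
    refine ⟨j, j', a, (((r2 j).union (r2 j')).image fun x => encode (pre x (sInf {n | T (pre x n) = false}))).subset
      fun i ⟨c, d, e⟩ => ?_⟩
    obtain ⟨x, x1, n, x2, rfl⟩ := (e2 i).1 c
    refine ⟨x, ?_, by beta_reduce; rw [k1 x n x2]⟩
    have : ∀ m, ¬ (U (pre x m) = false ∨ D (pre x m) ∧ V j (encode (pre x m))) := fun m => not_or.2
      ⟨by simp [(u2 x).1 x1 m], fun k => e ((k1 x m k.1).symm.trans (k1 x n x2) ▸ k.2)⟩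
    by_cases c : x ∈ R j
    exacts [.inr (.inr ⟨b ▸ c, fun k => k n (.inr ⟨x2, d⟩)⟩), .inl (.inl ⟨this, c⟩)]

end Pool.Agent.H.MP_3eaa21_lc
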